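import Mathlib

/-!
# EK: arc length of the unit circle in a disc
-/

set_option autoImplicit false

open MeasureTheory ProbabilityTheory Filter Topology
open scoped ENNReal

namespace Pool.Agent.Helper61.EK

/-- two points of the circle at a small distance -/
theorem arg_close {x y r : ℝ} (hx : x ∈ Set.Ioc (-Real.pi) Real.pi) (hy : y ∈ Set.Ioc (-Real.pi) Real.pi)
    (h : ‖Complex.exp (x * Complex.I) - Complex.exp (y * Complex.I)‖ ≤ 2 * r) :
    ∃ k : ℝ, (k = 0 ∨ k = 1 ∨ k = -1) ∧ |x - y - 2 * Real.pi * k| ≤ Real.pi * r := by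
  have hpi := Real.pi_pos
  have e1 : ‖Complex.exp (x * Complex.I) - Complex.exp (y * Complex.I)‖ = 2 * |Real.sin ((x - y) / 2)| := by
    have e2 : Complex.exp (x * Complex.I) - Complex.exp (y * Complex.I) =
        Complex.exp (y * Complex.I) * (Complex.exp (Complex.I * ((x - y : ℝ) : ℂ)) - 1) := by
      rw [mul_sub, ← Complex.exp_add, mul_one]
      congr 2
      push_cast
      ring
    rw [e2, norm_mul, Complex.norm_exp_ofReal_mul_I, one_mul, Complex.norm_exp_I_mul_ofReal_sub_one, Real.norm_eq_abs, abs_mul, abs_two]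
  rw [e1] at h
  have h1 : |Real.sin ((x - y) / 2)| ≤ r := by linarith
  have key : ∀ v : ℝ, |v| ≤ Real.pi / 2 → |Real.sin v| ≤ r → |v| ≤ Real.pi / 2 * r := by
    intro v hv hs
    have h2 := Real.mul_abs_le_abs_sin hv
    have h3 : 2 / Real.pi * |v| ≤ r := h2.trans hs
    rw [div_mul_eq_mul_div, div_le_iff₀ hpi] at h3
    linarith
  obtain ⟨hx1, hx2⟩ := hx
  obtain ⟨hy1, hy2⟩ := hy
  rcases le_or_gt ((x - y) / 2) (Real.pi / 2) with h2 | h2
  · rcases le_or_gt (-(Real.pi / 2)) ((x - y) / 2) with h3 | h3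
    · refine ⟨0, Or.inl rfl, ?_⟩
      have h4 := key _ (abs_le.2 ⟨h3, h2⟩) h1
      have e : x - y - 2 * Real.pi * 0 = 2 * ((x - y) / 2) := by ring
      rw [e, abs_mul, abs_two]
      linarith
    · refine ⟨-1, Or.inr (Or.inr rfl), ?_⟩
      have h4 := key ((x - y) / 2 + Real.pi) (abs_le.2 ⟨by linarith, by linarith⟩) (by rw [Real.sin_add_pi, abs_neg]; exact h1)
      have e : x - y - 2 * Real.pi * -1 = 2 * ((x - y) / 2 + Real.pi) := by ring
      rw [e, abs_mul, abs_two]
      linarith
  · refine ⟨1, Or.inr (Or.inl rfl), ?_⟩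
    have h4 := key ((x - y) / 2 - Real.pi) (abs_le.2 ⟨by linarith, by linarith⟩) (by rw [Real.sin_sub_pi, abs_neg]; exact h1)
    have e : x - y - 2 * Real.pi * 1 = 2 * ((x - y) / 2 - Real.pi) := by ring
    rw [e, abs_mul, abs_two]
    linarith

/-- leaf CIRCLE (arc length of the unit circle) -/
theorem circle_ball (a : ℂ) (r : ℝ) (h0 : 0 < r) (h1 : r ≤ 1) :
    (((volume : Measure ℝ).restrict (Set.Ioc (-Real.pi) Real.pi)).map
      (fun x : ℝ => Complex.exp (x * Complex.I))) (Metric.closedBall a r) ≤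
      ENNReal.ofReal (20 * r ^ (1 : ℝ)) := by
  have hm : Measurable (fun x : ℝ => Complex.exp (x * Complex.I)) := by fun_prop
  have hpi := Real.pi_pos
  rw [Measure.map_apply hm Metric.isClosed_closedBall.measurableSet,
    Measure.restrict_apply (hm Metric.isClosed_closedBall.measurableSet)]
  set s := (fun x : ℝ => Complex.exp (x * Complex.I)) ⁻¹' Metric.closedBall a r ∩ Set.Ioc (-Real.pi) Real.pi with hs
  rcases s.eq_empty_or_nonempty with h | ⟨y, hy⟩
  · rw [h, measure_empty]
    exact zero_le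
  · have hsub : s ⊆ Set.Icc (y - Real.pi * r) (y + Real.pi * r) ∪
        (Set.Icc (y + 2 * Real.pi - Real.pi * r) (y + 2 * Real.pi + Real.pi * r) ∪
          Set.Icc (y - 2 * Real.pi - Real.pi * r) (y - 2 * Real.pi + Real.pi * r)) := by
      intro x hx
      have d1 : dist (Complex.exp (x * Complex.I)) a ≤ r := hx.1
      have d2 : dist (Complex.exp (y * Complex.I)) a ≤ r := hy.1
      have d3 : ‖Complex.exp (x * Complex.I) - Complex.exp (y * Complex.I)‖ ≤ 2 * r := by
        rw [← dist_eq_norm]
        have := dist_triangle_right (Complex.exp (x * Complex.I)) (Complex.exp (y * Complex.I)) a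
        linarith
      obtain ⟨k, hk, h2⟩ := arg_close hx.2 hy.2 d3
      rw [abs_le] at h2
      obtain ⟨h3, h4⟩ := h2
      rcases hk with rfl | rfl | rfl
      · left
        exact ⟨by linarith, by linarith⟩
      · right; left
        exact ⟨by linarith, by linarith⟩
      · right; right
        exact ⟨by linarith, by linarith⟩
    have hv : ∀ c : ℝ, volume (Set.Icc (c - Real.pi * r) (c + Real.pi * r)) = ENNReal.ofReal (2 * Real.pi * r) := by
      intro c
      rw [Real.volume_Icc]
      congr 1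
      ring
    calc volume s ≤ volume (Set.Icc (y - Real.pi * r) (y + Real.pi * r) ∪
        (Set.Icc (y + 2 * Real.pi - Real.pi * r) (y + 2 * Real.pi + Real.pi * r) ∪
          Set.Icc (y - 2 * Real.pi - Real.pi * r) (y - 2 * Real.pi + Real.pi * r))) := measure_mono hsub
      _ ≤ ENNReal.ofReal (2 * Real.pi * r) + (ENNReal.ofReal (2 * Real.pi * r) + ENNReal.ofReal (2 * Real.pi * r)) := by
        refine (measure_union_le _ _).trans (add_le_add (hv _).le ((measure_union_le _ _).trans (add_le_add (hv _).le (hv _).le)))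
      _ = ENNReal.ofReal (2 * Real.pi * r + (2 * Real.pi * r + 2 * Real.pi * r)) := by
        rw [ENNReal.ofReal_add, ENNReal.ofReal_add] <;> positivity
      _ ≤ ENNReal.ofReal (20 * r ^ (1 : ℝ)) := by
        apply ENNReal.ofReal_le_ofReal
        rw [Real.rpow_one]
        have : Real.pi < 3.15 := Real.pi_lt_d2
        nlinarith

end Pool.Agent.Helper61.EK
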